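import Pool.Agent.helper72.UP.Spec

set_option autoImplicit false

namespace Pool.Agent.helper72.UP

open Finset

theorem LYF : LYF_stmt := by
  classical
  intro α _ y p q T hy hp hpq
  obtain ⟨B, hB⟩ : ∃ B : Finset ℝ, B = {T, T - p, T - q, T - p - q} := ⟨_, rfl⟩
  obtain ⟨F, hF⟩ : ∃ F : ℝ → Finset (Finset α), F = fun t => univ.filter (fun S => ∑ i ∈ S, y i = t) := ⟨_, rfl⟩
  have hmem : ∀ t S, S ∈ F t ↔ ∑ i ∈ S, y i = t := by
    intro t S
    rw [hF]
    simp
  have hcnt : ∀ t, cnt y t = #(F t) := by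
    intro t
    unfold cnt
    apply congrArg card
    ext S
    rw [hmem]
    simp
  have hanti : ∀ t, IsAntichain (· ⊆ ·) ((F t : Finset (Finset α)) : Set (Finset α)) := by
    intro t S hS S' hS' hne hsub
    rw [mem_coe, hmem] at hS hS'
    obtain ⟨i, hi, hi'⟩ : ∃ i ∈ S', i ∉ S := by
      by_contra hcon
      push Not at hcon
      exact hne (Subset.antisymm hsub hcon)
    have := sum_lt_sum_of_subset (f := y) hsub hi hi' (hy i) (fun j _ _ => (hy j).le)
    rw [hS, hS'] at this
    exact lt_irrefl _ this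
  have hBcard : #B ≤ 4 := by
    rw [hB]; exact card_le_four
  have hsumB : ∀ g : ℝ → ℝ, ∑ t ∈ B, g t = g T + g (T - p) + g (T - q) + g (T - p - q) := by
    intro g
    rw [hB, sum_insert, sum_insert, sum_insert, sum_singleton]
    · ring
    · rw [mem_singleton]
      intro h
      linarith
    · rw [mem_insert, mem_singleton]
      rintro (h | h) <;> linarith
    · rw [mem_insert, mem_insert, mem_singleton]
      rintro (h | h | h) <;> linarith
  refine ⟨fun r => ∑ t ∈ B, (#((F t).slice r) : ℝ), ?_, ?_, ?_⟩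
  · intro r _
    refine ⟨sum_nonneg (fun t _ => Nat.cast_nonneg _), ?_⟩
    have hdis : (B : Set ℝ).PairwiseDisjoint (fun t => (F t).slice r) := by
      intro t _ t' _ hne
      rw [Function.onFun, disjoint_left]
      intro S hS hS'
      rw [mem_slice, hmem] at hS hS'
      exact hne (hS.1.symm.trans hS'.1)
    have h1 : ∑ t ∈ B, #((F t).slice r) = #(B.biUnion (fun t => (F t).slice r)) := (card_biUnion hdis).symm
    have h2 : B.biUnion (fun t => (F t).slice r) ⊆ powersetCard r univ := by
      intro S hS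
      rw [mem_biUnion] at hS
      obtain ⟨t, -, hS⟩ := hS
      rw [mem_slice] at hS
      rw [mem_powersetCard]
      exact ⟨subset_univ _, hS.2⟩
    have h3 := card_le_card h2
    rw [card_powersetCard, card_univ, ← h1] at h3
    have h4 : ((∑ t ∈ B, #((F t).slice r) : ℕ) : ℝ) ≤ ((Fintype.card α).choose r : ℝ) := Nat.cast_le.mpr h3
    rw [Nat.cast_sum] at h4
    exact h4
  · calc ∑ r ∈ range (Fintype.card α + 1), (∑ t ∈ B, (#((F t).slice r) : ℝ)) / ((Fintype.card α).choose r : ℝ)
        = ∑ t ∈ B, ∑ r ∈ range (Fintype.card α + 1), (#((F t).slice r) : ℝ) / ((Fintype.card α).choose r : ℝ) := by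
          rw [sum_comm]
          apply sum_congr rfl
          intro r _
          rw [sum_div]
      _ ≤ ∑ t ∈ B, (1 : ℝ) := sum_le_sum (fun t _ => lubell_yamamoto_meshalkin_inequality_sum_card_div_choose (hanti t))
      _ = (#B : ℝ) := by simp
      _ ≤ 4 := by exact_mod_cast hBcard
  · have hsl : ∀ t, ∑ r ∈ range (Fintype.card α + 1), (#((F t).slice r) : ℝ) = (cnt y t : ℝ) := by
      intro t
      rw [hcnt t, ← Nat.cast_sum]
      apply congrArg
      rw [← sum_card_slice]
      apply sum_congr _ (fun _ _ => rfl)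
      ext r
      rw [mem_range, mem_Iic]
      omega
    rw [sum_comm, sum_congr rfl (fun t _ => hsl t), hsumB (fun t => (cnt y t : ℝ))]

end Pool.Agent.helper72.UP
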