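import Pool.Agent.helper72.UP.Spec

set_option autoImplicit false

namespace Pool.Agent.helper72.UP

open Finset

theorem RAT : RAT_stmt := by
  intro n i h1 h2 h3
  have hn : 0 < n := by omega
  obtain ⟨H, hH⟩ : ∃ H, H = (n + 1) / 2 := ⟨_, rfl⟩
  obtain ⟨h, hh⟩ : ∃ h, h = n / 2 := ⟨_, rfl⟩
  have hHh : H + h = n := by omega
  have hiH : i ≤ H := by omega
  have hih : i ≤ h := by omega
  have hHhR : (H : ℝ) + h = n := by exact_mod_cast hHh
  have hnR : (0 : ℝ) < n := by exact_mod_cast hn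
  have h1R : (n : ℝ) ≤ 4 * i := by exact_mod_cast h1
  have h2R : 2 * (i : ℝ) ≤ n := by exact_mod_cast h2
  have h3R : (1 : ℝ) ≤ i := by exact_mod_cast h3
  have e1 : (H.choose (i + 1) : ℝ) * ((i : ℝ) + 1) = H.choose i * ((H : ℝ) - i) := by
    have := congrArg (Nat.cast : ℕ → ℝ) (Nat.choose_succ_right_eq H i)
    push_cast [Nat.cast_sub hiH] at this
    exact this
  have e2 : (h.choose (i + 1) : ℝ) * ((i : ℝ) + 1) = h.choose i * ((h : ℝ) - i) := by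
    have := congrArg (Nat.cast : ℕ → ℝ) (Nat.choose_succ_right_eq h i)
    push_cast [Nat.cast_sub hih] at this
    exact this
  have u1 : (uu n (i + 1) : ℝ) = (H.choose (i + 1) : ℝ) * (h.choose (i + 1) : ℝ) := by
    rw [uu, ← hH, ← hh]; push_cast; rfl
  have u2 : (uu n i : ℝ) = (H.choose i : ℝ) * (h.choose i : ℝ) := by
    rw [uu, ← hH, ← hh]; push_cast; rfl
  have key : (uu n (i + 1) : ℝ) * (((i : ℝ) + 1) * ((i : ℝ) + 1)) = uu n i * (((H : ℝ) - i) * ((h : ℝ) - i)) := by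
    rw [u1, u2]
    calc (H.choose (i + 1) : ℝ) * (h.choose (i + 1) : ℝ) * (((i : ℝ) + 1) * ((i : ℝ) + 1))
        = ((H.choose (i + 1) : ℝ) * ((i : ℝ) + 1)) * ((h.choose (i + 1) : ℝ) * ((i : ℝ) + 1)) := by ring
      _ = (H.choose i * ((H : ℝ) - i)) * (h.choose i * ((h : ℝ) - i)) := by rw [e1, e2]
      _ = _ := by ring
  have hA : (0 : ℝ) ≤ uu n i := Nat.cast_nonneg _
  obtain ⟨t, ht⟩ : ∃ t : ℝ, t = (4 * (i : ℝ) - n) / n := ⟨_, rfl⟩
  have htn : t * n = 4 * (i : ℝ) - n := by rw [ht]; field_simp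
  have amgm : ((H : ℝ) - i) * ((h : ℝ) - i) ≤ ((n : ℝ) / 2 - i) ^ 2 := by
    rw [← hHhR]
    nlinarith [sq_nonneg ((H : ℝ) - h)]
  have hx : ((n : ℝ) / 2 - i) = (1 - t) * (n / 4) := by
    have : (1 - t) * ((n : ℝ) / 4) = (n - t * n) / 4 := by ring
    rw [this, htn]; ring
  have hx0 : 0 ≤ (n : ℝ) / 2 - i := by linarith
  have ht1 : 0 ≤ 1 - t := by
    rw [hx] at hx0
    exact nonneg_of_mul_nonneg_left hx0 (by positivity)
  have hle : (n : ℝ) / 2 - i ≤ (1 - t) * ((i : ℝ) + 1) := by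
    rw [hx]
    apply mul_le_mul_of_nonneg_left _ ht1
    linarith
  have hexp : (1 - t) ^ 2 ≤ Real.exp (-(2 * (4 * (i : ℝ) - n) / n)) := by
    have ha := Real.add_one_le_exp (-t)
    have hb : 1 - t ≤ Real.exp (-t) := by linarith
    calc (1 - t) ^ 2 ≤ (Real.exp (-t)) ^ 2 := pow_le_pow_left₀ ht1 hb 2
      _ = Real.exp (-(2 * (4 * (i : ℝ) - n) / n)) := by
        rw [← Real.exp_nat_mul, ht]
        apply congrArg
        push_cast
        ring
  have hfin : (uu n (i + 1) : ℝ) * (((i : ℝ) + 1) * ((i : ℝ) + 1)) ≤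
      (uu n i * Real.exp (-(2 * (4 * (i : ℝ) - n) / n))) * (((i : ℝ) + 1) * ((i : ℝ) + 1)) := by
    rw [key]
    have s1 : ((H : ℝ) - i) * ((h : ℝ) - i) ≤ ((1 - t) * ((i : ℝ) + 1)) ^ 2 :=
      le_trans amgm (pow_le_pow_left₀ hx0 hle 2)
    have s2 : ((1 - t) * ((i : ℝ) + 1)) ^ 2 ≤ Real.exp (-(2 * (4 * (i : ℝ) - n) / n)) * (((i : ℝ) + 1) * ((i : ℝ) + 1)) := by
      have : ((1 - t) * ((i : ℝ) + 1)) ^ 2 = (1 - t) ^ 2 * (((i : ℝ) + 1) * ((i : ℝ) + 1)) := by ring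
      rw [this]
      exact mul_le_mul_of_nonneg_right hexp (by positivity)
    calc (uu n i : ℝ) * (((H : ℝ) - i) * ((h : ℝ) - i)) ≤ uu n i * (Real.exp (-(2 * (4 * (i : ℝ) - n) / n)) * (((i : ℝ) + 1) * ((i : ℝ) + 1))) :=
          mul_le_mul_of_nonneg_left (le_trans s1 s2) hA
      _ = _ := by ring
  exact le_of_mul_le_mul_right hfin (by positivity)

end Pool.Agent.helper72.UP
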